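import Mathlib
import Pool.Agent.Helper48.AA.Goals

/-!
# Packet AA-ML: the fourth correlations
-/

set_option autoImplicit false

open Finset

open scoped Classical

namespace Pool.Agent.Helper33.AA

open Pool.Agent.Helper48.AA

/-- the sum over `x` of the product of the four factors -/
noncomputable def Ax (X : ℕ) (a d : Fin 4 → ℕ) : ℝ :=
  ∑ x ∈ Icc 1 X, ∏ i, ((if d i ∣ x + a i then (1 : ℝ) else 0) - 1 / (d i : ℝ))

theorem expand (D X : ℕ) (la : Fin 4 → ℕ → ℝ) (a : Fin 4 → ℕ) :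
    ∑ x ∈ Icc 1 X, ∏ i, Fx D (la i) (a i) x
      = ∑ d ∈ Fintype.piFinset (fun _ : Fin 4 => Icc 1 D), (∏ i, la i (d i)) * Ax X a d := by
  unfold Fx Ax
  simp only [Finset.prod_univ_sum, Finset.mul_sum]
  rw [Finset.sum_comm]
  refine Finset.sum_congr rfl (fun d _ => Finset.sum_congr rfl (fun x _ => ?_))
  rw [← Finset.prod_mul_distrib]

theorem abs_Ax_le (X : ℕ) (a d : Fin 4 → ℕ) :
    |Ax X a d| ≤ ∑ x ∈ Icc 1 X, ∏ j, ((if d j ∣ x + a j then (1 : ℝ) else 0) + 1 / (d j : ℝ)) := by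
  unfold Ax
  refine (Finset.abs_sum_le_sum_abs _ _).trans (Finset.sum_le_sum (fun x _ => ?_))
  rw [Finset.abs_prod]
  refine Finset.prod_le_prod (fun i _ => abs_nonneg _) (fun i _ => ?_)
  refine (abs_sub _ _).trans (le_of_eq ?_)
  congr 1
  · split_ifs <;> simp
  · rw [abs_of_nonneg (by positivity)]

theorem mem_of_dvd_prod {P : Finset ℕ} (hP : ∀ p ∈ P, p.Prime) {q : ℕ} (hq : q.Prime)
    (h : q ∣ ∏ p ∈ P, p) : q ∈ P := by
  obtain ⟨p, hp, hqp⟩ := (Prime.dvd_finsetProd_iff hq.prime _).mp h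
  rwa [(Nat.prime_dvd_prime_iff_eq hq (hP p hp)).mp hqp]

theorem abs_W_le {D : ℕ} {P : Fin 4 → Finset ℕ} {la : Fin 4 → ℕ → ℝ}
    (h : ∀ i, Wt D (P i) (la i)) (d : Fin 4 → ℕ) : |∏ i, la i (d i)| ≤ 16 := by
  rw [Finset.abs_prod]
  calc ∏ i, |la i (d i)| ≤ ∏ _i : Fin 4, (2 : ℝ) :=
        Finset.prod_le_prod (fun i _ => abs_nonneg _) (fun i _ => (h i).1 _)
    _ = 16 := by simp; norm_num

theorem gML : StmtMA → StmtMB1 → StmtLS → StmtLZ → StmtML := by
  intro hMA hMB hLS hLZ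
  obtain ⟨C0, hC0, hLZ4⟩ := hLZ 4
  refine ⟨8192 * C0 + 256, by linarith, ?_⟩
  intro z D X P la a hz hDX hP hW
  set T : Finset (Fin 4 → ℕ) := Fintype.piFinset (fun _ : Fin 4 => Icc 1 D) with hT
  set Pz : Finset ℕ := univ.biUnion P with hPz
  have hPzp : ∀ p ∈ Pz, p.Prime ∧ p ≤ z := by
    intro p hp
    obtain ⟨i, _, hi⟩ := Finset.mem_biUnion.mp hp
    exact hP i p hi
  set br : Fin 4 → ℕ → ℝ := fun i q => 1 / (q : ℝ) + if a 0 ≡ a i [MOD q] then 1 else 0 with hbr
  have hbr0 : ∀ i q, 0 ≤ br i q := by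
    intro i q
    simp only [hbr]
    split_ifs <;> positivity
  set cond : (Fin 4 → ℕ) → Fin 4 → ℕ → Prop := fun d i q =>
    q ∣ d 0 ∧ q ∣ d i ∧ d ∈ Tp 4 Pz with hcond
  set I : Finset (Fin 4) := {1, 2, 3} with hI
  have hIne : ∀ i : Fin 4, i ≠ 0 → i ∈ I := by
    intro i hi
    fin_cases i <;> simp [hI] at hi ⊢
  have hI0 : ∀ i ∈ I, i ≠ 0 := by
    intro i hi
    simp only [hI, Finset.mem_insert, Finset.mem_singleton] at hi
    rcases hi with rfl | rfl | rfl <;> decide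
  set val : (Fin 4 → ℕ) → Fin 4 → ℕ → ℝ := fun d i q =>
    16 * (32 * X / ((univ.lcm d : ℕ) : ℝ) * br i q) with hval
  have hval0 : ∀ d i q, 0 ≤ val d i q := by
    intro d i q
    simp only [hval]
    have := hbr0 i q
    positivity
  have hnn : ∀ d i q, 0 ≤ (if cond d i q then val d i q else 0) := by
    intro d i q
    split_ifs
    · exact hval0 d i q
    · exact le_rfl
  have hTmem : ∀ d ∈ T, ∀ i, 1 ≤ d i ∧ d i ≤ D := by
    intro d hd i
    have := (Fintype.mem_piFinset.mp hd) i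
    exact Finset.mem_Icc.mp this
  have hterm : ∀ d ∈ T, |(∏ i, la i (d i)) * Ax X a d| ≤ 256 +
      ∑ i ∈ I, ∑ q ∈ P 0 ∩ P i, (if cond d i q then val d i q else 0) := by
    intro d hd
    have hs0 : 0 ≤ ∑ i ∈ I, ∑ q ∈ P 0 ∩ P i, (if cond d i q then val d i q else 0) :=
      Finset.sum_nonneg (fun i _ => Finset.sum_nonneg (fun q _ => hnn d i q))
    rw [abs_mul]
    by_cases hW0 : ∏ i, la i (d i) = 0
    · rw [hW0, abs_zero, zero_mul]; linarith
    have hne : ∀ i, la i (d i) ≠ 0 := fun i h => hW0 (Finset.prod_eq_zero (Finset.mem_univ i) h)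
    have hdvd : ∀ i, d i ∣ ∏ p ∈ P i, p := fun i => ((hW i).2 _ (hne i)).1
    have h1 := abs_W_le hW d
    by_cases hco : ∀ i, i ≠ 0 → Nat.Coprime (d 0) (d i)
    · have h2 : |Ax X a d| ≤ 16 := hMA d a X (fun i => (hTmem d hd i).1) hco
      have : |∏ i, la i (d i)| * |Ax X a d| ≤ 16 * 16 :=
        mul_le_mul h1 h2 (abs_nonneg _) (by norm_num)
      linarith
    · push Not at hco
      obtain ⟨i, hi0, hnc⟩ := hco
      obtain ⟨q, hq, hq0, hqi⟩ := Nat.Prime.not_coprime_iff_dvd.mp hnc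
      have hq0P : q ∈ P 0 := mem_of_dvd_prod (fun p hp => (hP 0 p hp).1) hq (hq0.trans (hdvd 0))
      have hqiP : q ∈ P i := mem_of_dvd_prod (fun p hp => (hP i p hp).1) hq (hqi.trans (hdvd i))
      have hprod : ∏ j, d j ≤ X := by
        calc ∏ j, d j ≤ ∏ _j : Fin 4, D :=
              Finset.prod_le_prod' (fun j _ => (hTmem d hd j).2)
          _ = D ^ 4 := by simp
          _ ≤ X := hDX
      have h2 := (abs_Ax_le X a d).trans
        (hMB d a X q i hq (fun j => (hTmem d hd j).1) hprod hi0 hq0 hqi)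
      have h3 : |∏ i, la i (d i)| * |Ax X a d| ≤ val d i q := by
        simp only [hval, hbr]
        exact mul_le_mul h1 h2 (abs_nonneg _) (by norm_num)
      have hTp : d ∈ Tp 4 Pz := by
        unfold Tp
        rw [Fintype.mem_piFinset]
        intro j
        rw [Nat.mem_divisors]
        refine ⟨(hdvd j).trans ?_, ?_⟩
        · exact Finset.prod_dvd_prod_of_subset _ _ _
            (fun p hp => Finset.mem_biUnion.mpr ⟨j, Finset.mem_univ j, hp⟩)
        · exact Finset.prod_ne_zero_iff.mpr (fun p hp => (hPzp p hp).1.ne_zero)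
      have hc : cond d i q := ⟨hq0, hqi, hTp⟩
      have h4 : val d i q ≤ ∑ q ∈ P 0 ∩ P i, (if cond d i q then val d i q else 0) := by
        have := Finset.single_le_sum (f := fun q => if cond d i q then val d i q else 0)
          (fun q _ => hnn d i q) (Finset.mem_inter.mpr ⟨hq0P, hqiP⟩)
        simpa only [if_pos hc] using this
      have h5 : ∑ q ∈ P 0 ∩ P i, (if cond d i q then val d i q else 0)
          ≤ ∑ i ∈ I, ∑ q ∈ P 0 ∩ P i, (if cond d i q then val d i q else 0) :=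
        Finset.single_le_sum
          (f := fun i => ∑ q ∈ P 0 ∩ P i, (if cond d i q then val d i q else 0))
          (fun i _ => Finset.sum_nonneg (fun q _ => hnn d i q)) (hIne i hi0)
      linarith
  set L : ℝ := Real.log z ^ 16 with hL
  have hlogz : 0 ≤ Real.log z := Real.log_natCast_nonneg z
  have hL0 : 0 ≤ L := by positivity
  have hinner : ∀ i ∈ I, ∀ q ∈ P 0 ∩ P i,
      ∑ d ∈ T, (if cond d i q then val d i q else 0)
        ≤ 8192 * C0 * X * L * (1 / (q : ℝ) * br i q) := by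
    intro i hi q hq
    have hqPz : q ∈ Pz := Finset.mem_biUnion.mpr ⟨0, Finset.mem_univ 0, (Finset.mem_inter.mp hq).1⟩
    have e1 : ∑ d ∈ T, (if cond d i q then val d i q else 0)
        ≤ ∑ d ∈ (Tp 4 Pz).filter (fun d => q ∣ univ.lcm d), val d i q := by
      rw [← Finset.sum_filter]
      apply Finset.sum_le_sum_of_subset_of_nonneg
      · intro d hd
        obtain ⟨_, hd2⟩ := Finset.mem_filter.mp hd
        refine Finset.mem_filter.mpr ⟨hd2.2.2, hd2.1.trans (Finset.dvd_lcm (Finset.mem_univ 0))⟩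
      · intro d _ _
        exact hval0 d i q
    have e2 : ∑ d ∈ (Tp 4 Pz).filter (fun d => q ∣ univ.lcm d), val d i q
        = 512 * X * br i q * ∑ d ∈ (Tp 4 Pz).filter (fun d => q ∣ univ.lcm d),
          1 / ((univ.lcm d : ℕ) : ℝ) := by
      rw [Finset.mul_sum]
      refine Finset.sum_congr rfl (fun d _ => ?_)
      simp only [hval]; ring
    have e3 := (hLS 4 Pz (fun p hp => (hPzp p hp).1)).2 q hqPz
    have e4 := hLZ4 z hz Pz hPzp
    have e5 : ∑ d ∈ (Tp 4 Pz).filter (fun d => q ∣ univ.lcm d), 1 / ((univ.lcm d : ℕ) : ℝ)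
        ≤ 2 ^ 4 / (q : ℝ) * (C0 * L) := by
      refine e3.trans (mul_le_mul_of_nonneg_left ?_ (by positivity))
      have : (2 : ℕ) ^ 4 = 16 := by norm_num
      rw [this] at e4
      exact e4
    have hb := hbr0 i q
    calc ∑ d ∈ T, (if cond d i q then val d i q else 0)
        ≤ 512 * X * br i q * ∑ d ∈ (Tp 4 Pz).filter (fun d => q ∣ univ.lcm d),
          1 / ((univ.lcm d : ℕ) : ℝ) := e1.trans (le_of_eq e2)
      _ ≤ 512 * X * br i q * (2 ^ 4 / (q : ℝ) * (C0 * L)) :=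
          mul_le_mul_of_nonneg_left e5 (by positivity)
      _ = _ := by ring
  have hcard : (T.card : ℝ) = (D : ℝ) ^ 4 := by
    rw [hT, Fintype.card_piFinset]
    simp
  set S : ℝ := ∑ i ∈ I, ∑ q ∈ P 0 ∩ P i, 1 / (q : ℝ) * br i q with hS
  have hS0 : 0 ≤ S := Finset.sum_nonneg (fun i _ => Finset.sum_nonneg (fun q _ =>
    mul_nonneg (by positivity) (hbr0 i q)))
  rw [expand]
  calc |∑ d ∈ T, (∏ i, la i (d i)) * Ax X a d|
      ≤ ∑ d ∈ T, |(∏ i, la i (d i)) * Ax X a d| := Finset.abs_sum_le_sum_abs _ _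
    _ ≤ ∑ d ∈ T, (256 + ∑ i ∈ I, ∑ q ∈ P 0 ∩ P i, (if cond d i q then val d i q else 0)) :=
        Finset.sum_le_sum hterm
    _ = 256 * (D : ℝ) ^ 4 + ∑ i ∈ I, ∑ q ∈ P 0 ∩ P i, ∑ d ∈ T,
          (if cond d i q then val d i q else 0) := by
        rw [Finset.sum_add_distrib, Finset.sum_const, nsmul_eq_mul, hcard, Finset.sum_comm]
        congr 1
        · ring
        · exact Finset.sum_congr rfl (fun i _ => Finset.sum_comm)
    _ ≤ 256 * (D : ℝ) ^ 4 + ∑ i ∈ I, ∑ q ∈ P 0 ∩ P i,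
          8192 * C0 * X * L * (1 / (q : ℝ) * br i q) := by
        have := Finset.sum_le_sum (fun i hi => Finset.sum_le_sum (fun q hq => hinner i hi q hq))
        linarith
    _ = 256 * (D : ℝ) ^ 4 + 8192 * C0 * X * L * S := by
        rw [hS]
        simp only [Finset.mul_sum]
    _ ≤ (8192 * C0 + 256) * X * L * S + (8192 * C0 + 256) * (D : ℝ) ^ 4 := by
        have h1 : 0 ≤ 8192 * C0 * (D : ℝ) ^ 4 := by positivity
        have h2 : 0 ≤ 256 * X * L * S := by positivity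
        nlinarith

end Pool.Agent.Helper33.AA
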